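import Mathlib
import Pool.Agent.Lib.MP_ef7581_lc.DComb
import Pool.Agent.Lib.MP_ef7581_lc.DComp
import Pool.Agent.Lib.MP_ef7581_lc.DNorm

import Pool.Agent.Lib.MP_ef7581_lc.DOwn

import Pool.Agent.Lib.MP_ef7581_lc.DCore

import Pool.Agent.Lib.MP_ef7581_lc.DJump
import Pool.Agent.Lib.MP_ef7581_lc.DCls

import Pool.Agent.Lib.MP_ef7581_lc.DWit

import Pool.Agent.Lib.MP_ef7581_lc.DUA
import Pool.Agent.Lib.MP_ef7581_lc.DRNec
import Pool.Agent.Lib.MP_ef7581_lc.DKV
import Pool.Agent.Lib.MP_ef7581_lc.DRSel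
import Pool.Agent.Lib.MP_ef7581_lc.DRReal
import Pool.Agent.Lib.MP_ef7581_lc.DRed
import Pool.Agent.Lib.MP_ef7581_lc.DPU
import Pool.Agent.Lib.MP_ef7581_lc.DPR


/-!
Disjoint Paths is decidable in polynomial time on 3P1-free graphs and on (2P1+P2)-free graphs.
-/

set_option autoImplicit false

open Pool.Agent.Lib.MP_ef7581_lc Pool.Agent.Lib.MP_ef7581_lc.D2

theorem Pool.Agent.Results.MP_ef7581_lc.BothInP.result :
    DPinP (⊥ : SimpleGraph (Fin 3)) ∧ DPinP twoP1P2 := by
  have hT := tripStmt ramseyStmt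
  have hO := optStmt compStmt
  have hR := realStmt imgStmt (ownStmt imgStmt hallStmt peStmt) hallStmt peStmt
  have hCo := coreStmt compStmt imgStmt (r0Stmt compStmt normStmt imgStmt hO hR)
  have hS := slStmt normStmt peStmt (necStmt normStmt)
    (jumpStmt ramseyStmt compStmt peStmt normStmt hT imgStmt hO hR hCo)
  have hM := mainStmt hS normStmt hT (clsStmt ramseyStmt normStmt)
    (uSoundStmt (uaStmt unitStmt (witStmt unitStmt))) (uNecStmt normStmt unitStmt)
    (rSoundStmt normStmt hT (kvStmt peStmt) kCtxStmt (rSelStmt compStmt peStmt selStmt hallStmt)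
      (rRealStmt hallStmt)) (rNecStmt extStmt normStmt)
  exact finalStmt redStmt hM (pfUStmt pfSLStmt) (pfRStmt pfLabStmt pfSLStmt)
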