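import Mathlib
import Pool.Agent.Lib.MP_ef7581_lc.DComb
import Pool.Agent.Lib.MP_ef7581_lc.DComp
import Pool.Agent.Lib.MP_ef7581_lc.DNorm
import Pool.Agent.Lib.MP_ef7581_lc.DCls
import Pool.Agent.Lib.MP_ef7581_lc.DWit

import Pool.Agent.Lib.MP_ef7581_lc.DUA
import Pool.Agent.Lib.MP_ef7581_lc.DRed
import Pool.Agent.Lib.MP_ef7581_lc.EImg

import Pool.Agent.Lib.MP_ef7581_lc.EOpt
import Pool.Agent.Lib.MP_ef7581_lc.EReal

import Pool.Agent.Lib.MP_ef7581_lc.EUA
import Pool.Agent.Lib.MP_ef7581_lc.EJump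
import Pool.Agent.Lib.MP_ef7581_lc.ECls




import Pool.Agent.Lib.MP_ef7581_lc.EKV
import Pool.Agent.Lib.MP_ef7581_lc.ERAsg

import Pool.Agent.Lib.MP_ef7581_lc.ERSel

import Pool.Agent.Lib.MP_ef7581_lc.ERReal
import Pool.Agent.Lib.MP_ef7581_lc.EPSL
import Pool.Agent.Lib.MP_ef7581_lc.EPR



/-!
Disjoint Connected Subgraphs is decidable in polynomial time on (2P1+P2)-free graphs.
-/

set_option autoImplicit false

open Pool.Agent.Lib.MP_ef7581_lc Pool.Agent.Lib.MP_ef7581_lc.D2 Pool.Agent.Lib.MP_ef7581_lc.D3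

theorem Pool.Agent.Results.MP_ef7581_lc.DCSInP.result : DCSinP twoP1P2 := by
  have hT := tripS normS
  have hO := optS compStmt
  have hR := realS imgS (ownS imgS hallStmt peStmt) hallStmt peStmt
  have hCo := coreS compStmt imgS (r0S compStmt normS imgS hO hR)
  have hS := slS3 normS (necS normS) (jumpS compStmt peStmt normS hT imgS hO hR hCo)
    (pjS ramseyStmt normS)
  have hM := mainS hS normS hT (clsS ramseyStmt normS (clsStmt ramseyStmt normStmt))
    (uSoundS (uaStmt unitStmt (witStmt unitStmt)) (uax unitStmt))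
    (uNecS normS (necS normS) unitStmt) mSoundS (mNecS normS)
    (rSoundS normS hT (kvS peStmt) kCtxS (rSelS compStmt peStmt selStmt hallStmt)
      (rAsgS selStmt hallStmt) rRealS) (rNecS extStmt normS)
  exact finalS redS hM (pfUS pfSLS) (pfMS pfSLS) (pfRS pfLabStmt pfSLS)
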